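import Mathlib
import Pool.Agent.H638.GM.FinB

set_option autoImplicit false

/-!
# The graph measure on `Homeo([0,1]^d)` is not lower semicontinuous for `d ≥ 3`

For every `d ≥ 3` there is a homeomorphism `f` of the cube `[0,1]^d` onto itself whose graph has
infinite `d`-dimensional Hausdorff measure and which is a uniform limit of homeomorphisms of the cube
whose graphs have `d`-dimensional Hausdorff measure at most a fixed real number `c`.
-/

namespace Pool.Agent.Results.MP_ccb05f_an.NotLowerSemicontinuous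

open MeasureTheory

/-- the closed unit cube of the Euclidean space `ℝ^d` -/
def Cube (d : ℕ) : Set (EuclideanSpace ℝ (Fin d)) := {x | ∀ i, 0 ≤ x i ∧ x i ≤ 1}

/-- the graph of a homeomorphism of the cube, in the Euclidean space `ℝ^{2d}` -/
def graph {d : ℕ} (f : Cube d ≃ₜ Cube d) : Set (EuclideanSpace ℝ (Fin d ⊕ Fin d)) :=
  {p | ∃ x : Cube d, (∀ i, p (Sum.inl i) = (x : EuclideanSpace ℝ (Fin d)) i) ∧
    ∀ i, p (Sum.inr i) = (f x : EuclideanSpace ℝ (Fin d)) i}

theorem result (d : ℕ) (hd : 3 ≤ d) :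
    ∃ f : Cube d ≃ₜ Cube d, μH[(d : ℝ)] (graph f) = ⊤ ∧
      ∃ c : ℝ, ∀ ε : ℝ, 0 < ε → ∃ g : Cube d ≃ₜ Cube d,
        (∀ x, dist (f x) (g x) < ε) ∧ μH[(d : ℝ)] (graph g) ≤ ENNReal.ofReal c :=
  Pool.Agent.H638.GM.t_inf d hd

end Pool.Agent.Results.MP_ccb05f_an.NotLowerSemicontinuous
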