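import Mathlib
import Pool.Agent.H638.GM.FinB

set_option autoImplicit false

/-!
# The graph measure on `Homeo([0,1]^2)` is lower semicontinuous up to a constant factor

For a homeomorphism `f` of the square and `c ∈ [0, ∞]` with `4096 c < H^2(graph f)` all the
homeomorphisms `g` of the square which are uniformly close to `f` satisfy `c < H^2(graph g)`. In
particular the graph measure is lower semicontinuous at every `f` with `H^2(graph f) = ∞`, in
contrast to the dimensions `d ≥ 3`.
-/

namespace Pool.Agent.Results.MP_ccb05f_an.PlaneQuasiLowerSemicontinuous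

open MeasureTheory ENNReal

/-- the closed unit square of the Euclidean plane -/
def Square : Set (EuclideanSpace ℝ (Fin 2)) := {x | ∀ i, 0 ≤ x i ∧ x i ≤ 1}

/-- the graph of a homeomorphism of the square, in the Euclidean space `ℝ^4` -/
def graph (f : Square ≃ₜ Square) : Set (EuclideanSpace ℝ (Fin 2 ⊕ Fin 2)) :=
  {p | ∃ x : Square, (∀ i, p (Sum.inl i) = (x : EuclideanSpace ℝ (Fin 2)) i) ∧
    ∀ i, p (Sum.inr i) = (f x : EuclideanSpace ℝ (Fin 2)) i}

theorem result (f : Square ≃ₜ Square) (c : ℝ≥0∞) (hc : 4096 * c < μH[(2 : ℝ)] (graph f)) :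
    ∃ ε : ℝ, 0 < ε ∧ ∀ g : Square ≃ₜ Square, (∀ x, dist (f x) (g x) < ε) →
      c < μH[(2 : ℝ)] (graph g) :=
  Pool.Agent.H638.GM.t_two f c hc

end Pool.Agent.Results.MP_ccb05f_an.PlaneQuasiLowerSemicontinuous
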